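import Pool.Agent.MWGI.StmtsE

/-!
# Row TSF of squad MWGI (MP_23468a_al): finitely many tasks
-/

set_option autoImplicit false

namespace Pool.Agent.MWGI.H15

open Pool.Agent.Helper14_MV Pool.Agent.Helper2_MV Pool.Agent.MVO Pool.Agent.MWL Pool.Agent.MWS
  Pool.Agent.MWH Pool.Agent.MWGI

/-- row TSF -/
theorem tsf : TsfStmt := by
  intro n β k B B' Q M
  induction Q with
  | nil =>
    intro _
    refine ⟨[], by simp, fun θ _ _ => ⟨fun _ e he => absurd he (by simp), fun _ q hq => ?_⟩⟩
    exact absurd hq (by simp)
  | cons q Q ih =>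
    intro h
    obtain ⟨L1, g1, h1⟩ := h q (by simp)
    obtain ⟨L2, g2, h2⟩ := ih (fun r hr => h r (by simp [hr]))
    refine ⟨L1 ++ L2, ?_, ?_⟩
    · intro e he
      rcases List.mem_append.1 he with he | he
      · exact g1 e he
      · exact g2 e he
    · intro θ hθ hN
      obtain ⟨a1, b1⟩ := h1 θ hθ hN
      obtain ⟨a2, b2⟩ := h2 θ hθ hN
      refine ⟨?_, ?_⟩
      · intro hr e he
        rcases List.mem_append.1 he with he | he
        · exact a1 hr e he
        · exact a2 hr e he
      · intro he r hr
        rcases List.mem_cons.1 hr with rfl | hr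
        · exact b1 (fun e h' => he e (List.mem_append_left _ h'))
        · exact b2 (fun e h' => he e (List.mem_append_right _ h')) r hr

end Pool.Agent.MWGI.H15
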